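import Pool.Agent.Helper47.GomZ.Z
import Pool.Agent.Helper93.Gomoku.Extract

/-! Unrestricted five-in-a-row on the infinite board: the first player wins within a bounded number of
moves, with a positional strategy. -/

set_option autoImplicit false

namespace Pool.Agent.Results.MP_4d9d50_co.FirstPlayerWins

/-- a cell of the infinite square lattice -/
abbrev Cell := ℤ × ℤ

/-- `S` contains a winning line: the five cells `p + i v`, `i = 0, …, 4`, for some cell `p` and some
`v ∈ {(1,0), (0,1), (1,1), (1,-1)}` -/
def HasLine (S : Finset Cell) : Prop :=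
  ∃ p v : Cell, (v = (1, 0) ∨ v = (0, 1) ∨ v = (1, 1) ∨ v = (1, -1)) ∧
    ∀ i : Fin 5, p + (i : ℕ) • v ∈ S

/-- A strategy of the first player. A position is the pair `(B, W)` of the finite sets of cells claimed
by the first and by the second player; the strategy assigns an unclaimed cell to every position. -/
structure Strategy where
  /-- the cell claimed in the position `(B, W)` -/
  move : Finset Cell → Finset Cell → Cell
  /-- it is unclaimed -/
  legal : ∀ B W : Finset Cell, move B W ∉ B ∧ move B W ∉ W

/-- The cells claimed by the first and by the second player after `k` moves of each of them, when the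
first player follows `σ` and the second player claims `w 0, w 1, …`. -/
def claimed (σ : Strategy) (w : ℕ → Cell) : ℕ → Finset Cell × Finset Cell
  | 0 => (∅, ∅)
  | k + 1 => (insert (σ.move (claimed σ w k).1 (claimed σ w k).2) (claimed σ w k).1,
      insert (w k) (claimed σ w k).2)

/-- `σ` wins within `N` moves: against every sequence of moves of the second player that are legal as long
as the first player has made fewer than `N` moves (his move `w k` answers the `(k+1)`-st move of the
first player), there is `m < N` such that the first player has claimed a winning line after his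
`(m+1)`-st move while the second player, who has made `m` moves then, has not claimed one. -/
def Strategy.WinsWithin (σ : Strategy) (N : ℕ) : Prop :=
  ∀ w : ℕ → Cell,
    (∀ k : ℕ, k + 1 < N → w k ∉ (claimed σ w (k + 1)).1 ∧ w k ∉ (claimed σ w k).2) →
    ∃ m : ℕ, m < N ∧ HasLine (claimed σ w (m + 1)).1 ∧ ¬ HasLine (claimed σ w m).2

open Pool.Agent.Gomoku in
theorem hasLine_iff {S : Finset (ℤ × ℤ)} : HasLine S ↔ HasFive S := by
  constructor
  · rintro ⟨p, v, hv, h⟩
    refine ⟨win5 p v, ⟨p, v, hv, rfl⟩, fun c hc => ?_⟩
    rw [mem_win5] at hc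
    obtain ⟨i, hi, rfl⟩ := hc
    have h1 := h ⟨i, hi⟩
    simpa [Prod.ext_iff, Prod.add_def] using h1
  · rintro ⟨L, ⟨p, v, hv, rfl⟩, hL⟩
    refine ⟨p, v, hv, fun i => hL ?_⟩
    rw [mem_win5]
    exact ⟨i, i.2, by simp [Prod.add_def]⟩

open Classical in
/-- the strategy: the move of the certificate where it is legal, an unclaimed cell elsewhere -/
noncomputable def strategy : Strategy where
  move B W := if Pool.Agent.Gomoku.nextMove B W ∉ B ∧ Pool.Agent.Gomoku.nextMove B W ∉ W then
      Pool.Agent.Gomoku.nextMove B W
    else (Infinite.exists_notMem_finset (B ∪ W)).choose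
  legal B W := by
    by_cases h : Pool.Agent.Gomoku.nextMove B W ∉ B ∧ Pool.Agent.Gomoku.nextMove B W ∉ W
    · rw [if_pos h]; exact h
    · rw [if_neg h]
      have h1 := (Infinite.exists_notMem_finset (B ∪ W)).choose_spec
      rw [Finset.mem_union] at h1
      tauto

open Pool.Agent.Gomoku in
theorem strategy_good {n : ℕ} {B W : Finset (ℤ × ℤ)} (h : Win (n + 1) B W) :
    GoodMove n B W (strategy.move B W) := by
  have h1 := move_spec h
  have h2 : strategy.move B W = nextMove B W := by
    unfold strategy
    exact if_pos ⟨h1.1, h1.2.1⟩
  rw [h2]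
  exact h1

/-- The first player wins unrestricted five-in-a-row on the infinite board within `N` moves, for some
finite `N`. -/
theorem result : ∃ (N : ℕ) (σ : Strategy), σ.WinsWithin N := by
  classical
  obtain ⟨N, hN⟩ := Pool.Agent.Gomoku.win_all
  refine ⟨N, strategy, fun w hw => ?_⟩
  have key : ∀ k, k < N → (∀ j, j < k → ¬ HasLine (claimed strategy w (j + 1)).1) →
      Pool.Agent.Gomoku.Win (N - k) (claimed strategy w k).1 (claimed strategy w k).2 ∧
        ¬ HasLine (claimed strategy w k).2 := by
    intro k
    induction k with
    | zero =>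
      intro _ _
      refine ⟨by simpa [claimed] using hN, ?_⟩
      rw [hasLine_iff]
      apply Pool.Agent.Gomoku.not_hasFive_of_card
      simp [claimed]
    | succ k ih =>
      intro hk hno
      obtain ⟨hwin, _⟩ := ih (by omega) fun j hj => hno j (by omega)
      have hNk : N - k = (N - (k + 1)) + 1 := by omega
      rw [hNk] at hwin
      obtain ⟨_, _, g3⟩ := strategy_good hwin
      have hB : (claimed strategy w (k + 1)).1 = insert (strategy.move (claimed strategy w k).1
          (claimed strategy w k).2) (claimed strategy w k).1 := rfl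
      have hW : (claimed strategy w (k + 1)).2 = insert (w k) (claimed strategy w k).2 := rfl
      rw [← hB, ← hasLine_iff] at g3
      obtain ⟨y1, y2⟩ := hw k (by omega)
      have g4 := (g3.resolve_left (hno k (by omega))) _ y1 y2
      rw [hW, hasLine_iff]
      exact ⟨g4.2, g4.1⟩
  have hN0 : N ≠ 0 := by
    rintro rfl
    exact hN
  have hex : ∃ j, j < N ∧ HasLine (claimed strategy w (j + 1)).1 := by
    by_contra hcon
    push Not at hcon
    have h0 := (key (N - 1) (by omega) fun j hj => hcon j (by omega)).1
    have h1 : N - (N - 1) = 0 + 1 := by omega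
    rw [h1] at h0
    obtain ⟨_, _, g3⟩ := strategy_good h0
    have hB : (claimed strategy w (N - 1 + 1)).1 = insert (strategy.move
        (claimed strategy w (N - 1)).1 (claimed strategy w (N - 1)).2)
          (claimed strategy w (N - 1)).1 := rfl
    rw [← hB, ← hasLine_iff] at g3
    have g4 := g3.resolve_left (hcon (N - 1) (by omega))
    obtain ⟨y, hy⟩ := Infinite.exists_notMem_finset
      ((claimed strategy w (N - 1 + 1)).1 ∪ (claimed strategy w (N - 1)).2)
    rw [Finset.mem_union, not_or] at hy
    exact (g4 y hy.1 hy.2).2
  obtain ⟨hmN, hline⟩ : Nat.find hex < N ∧ HasLine (claimed strategy w (Nat.find hex + 1)).1 :=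
    Nat.find_spec hex
  have hno : ∀ j, j < Nat.find hex → ¬ HasLine (claimed strategy w (j + 1)).1 := fun j hj h5 =>
    Nat.find_min hex hj ⟨by omega, h5⟩
  exact ⟨Nat.find hex, hmN, hline, (key _ hmN hno).2⟩

end Pool.Agent.Results.MP_4d9d50_co.FirstPlayerWins
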